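import Pool.Agent.W295.NL.Stm

set_option autoImplicit false

/-!
# NL-G2B: the untwisted case
-/

namespace Pool.Agent.W798.NL.G2B

open Pool.Agent.W295.NL

theorem per_congr {α : Type} {g : ℕ → α} {m : ℕ} (hg : ∀ t, g (t + m) = g t) {t t' : ℕ}
    (h : t ≡ t' [MOD m]) : g t = g t' := by
  have hp : Function.Periodic g m := hg
  rw [← hp.map_mod_nat t, ← hp.map_mod_nat t', h]

theorem third {a b : Fin 3} (h : a ≠ b) : -(a + b) ≠ a ∧ -(a + b) ≠ b := by
  revert a b; decide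

theorem char2 : ∀ x y z w : ZMod 2, x + y + z + w = 0 → z = x + y + w := by decide

/-- The second coordinate. -/
def S (κ : ℕ → Fin 3) (A h : ℕ → ZMod 2) (s : ZMod 2) (a : Fin 3) (t : ℕ) : ZMod 2 :=
  if a = κ t then A t + s else if a = κ (t + 1) then A (t + 1) + s else h t

theorem sum_S {κ : ℕ → Fin 3} {A h : ℕ → ZMod 2} (s : ZMod 2) (t : ℕ) (hk : κ t ≠ κ (t + 1)) :
    S κ A h s 0 t + S κ A h s 1 t + S κ A h s 2 t = A t + A (t + 1) + h t := by
  unfold S
  generalize κ t = a at hk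
  generalize κ (t + 1) = b at hk
  generalize A t = x
  generalize A (t + 1) = y
  generalize h t = z
  revert hk x y z s
  revert a b
  decide

theorem S_fst {κ : ℕ → Fin 3} {A h : ℕ → ZMod 2} (s : ZMod 2) {a : Fin 3} {t : ℕ}
    (e : a = κ t) : S κ A h s a t = A t + s := by
  unfold S; rw [if_pos e]

theorem S_snd {κ : ℕ → Fin 3} {A h : ℕ → ZMod 2} (s : ZMod 2) {a : Fin 3} {t : ℕ}
    (e : a ≠ κ t) (e' : a = κ (t + 1)) : S κ A h s a t = A (t + 1) + s := by
  unfold S; rw [if_neg e, if_pos e']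

theorem S_trd {κ : ℕ → Fin 3} {A h : ℕ → ZMod 2} (s : ZMod 2) {a : Fin 3} {t : ℕ}
    (e : a ≠ κ t) (e' : a ≠ κ (t + 1)) : S κ A h s a t = h t := by
  unfold S; rw [if_neg e, if_neg e']

theorem S_per {κ : ℕ → Fin 3} {A h : ℕ → ZMod 2} {m : ℕ} (hκ : ∀ t, κ (t + m) = κ t)
    (hA : ∀ t, A (t + m) = A t) (hh : ∀ t, h (t + m) = h t) (s : ZMod 2) (a : Fin 3) (t : ℕ) :
    S κ A h s a (t + m) = S κ A h s a t := by
  unfold S
  have e : t + m + 1 = t + 1 + m := by ring
  rw [e, hκ, hκ, hA, hA, hh]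

theorem main : S_G2B := by
  intro Q L n hn X κ h hG f A hA hAp
  obtain ⟨C, hper, hX⟩ := hG
  obtain ⟨sg, hsg⟩ : ∃ sg : ℕ → ZMod 2, sg = fun j => (((j + 1) / 2 : ℕ) : ZMod 2) := ⟨_, rfl⟩
  obtain ⟨ν, hν⟩ : ∃ ν : ℕ → Fin 3, ν = fun t => -(κ t + κ (t + 1)) := ⟨_, rfl⟩
  obtain ⟨Y, hY⟩ : ∃ Y : Fin 3 → ℕ → Q × ZMod 2,
    Y = fun a j => (X a (j / 2), S κ A h (sg j) a (j / 2)) := ⟨_, rfl⟩
  obtain ⟨κ', hκ'⟩ : ∃ κ' : ℕ → Fin 3,
    κ' = fun j => if j % 2 = 0 then κ (j / 2) else ν (j / 2) := ⟨_, rfl⟩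
  have hνk : ∀ t, ν t ≠ κ t ∧ ν t ≠ κ (t + 1) := by
    intro t
    rw [hν]
    exact third (C.kne t)
  have sge : ∀ t, sg (2 * t) = (t : ZMod 2) := by
    intro t
    rw [hsg]
    show (((2 * t + 1) / 2 : ℕ) : ZMod 2) = t
    congr 1
    omega
  have sgo : ∀ t, sg (2 * t + 1) = (t : ZMod 2) + 1 := by
    intro t
    rw [hsg]
    show (((2 * t + 1 + 1) / 2 : ℕ) : ZMod 2) = t + 1
    have : (2 * t + 1 + 1) / 2 = t + 1 := by omega
    rw [this]
    push_cast
    rfl
  have c2 : ((2 * n : ℕ) : ZMod 2) = 0 := by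
    rw [Nat.cast_mul]
    have : ((2 : ℕ) : ZMod 2) = 0 := by decide
    rw [this, zero_mul]
  refine ⟨Y, κ', ⟨?_, ?_, ?_, ?_, ?_⟩, ?_⟩
  · intro a j
    rw [hY]
    have e1 : (j + 2 * (2 * n)) / 2 = j / 2 + 2 * n := by omega
    have e2 : sg (j + 2 * (2 * n)) = sg j := by
      rw [hsg]
      show (((j + 2 * (2 * n) + 1) / 2 : ℕ) : ZMod 2) = (((j + 1) / 2 : ℕ) : ZMod 2)
      have : (j + 2 * (2 * n) + 1) / 2 = (j + 1) / 2 + 2 * n := by omega
      rw [this, Nat.cast_add, c2, add_zero]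
    show (X a ((j + 2 * (2 * n)) / 2), S κ A h (sg (j + 2 * (2 * n))) a ((j + 2 * (2 * n)) / 2)) =
      (X a (j / 2), S κ A h (sg j) a (j / 2))
    rw [e1, e2, C.per, S_per C.kper hAp hper]
  · intro j
    rw [hκ', hν]
    have e1 : (j + 2 * (2 * n)) / 2 = j / 2 + 2 * n := by omega
    have e0 : (j + 2 * (2 * n)) % 2 = j % 2 := by omega
    show (if (j + 2 * (2 * n)) % 2 = 0 then κ ((j + 2 * (2 * n)) / 2) else
      -(κ ((j + 2 * (2 * n)) / 2) + κ ((j + 2 * (2 * n)) / 2 + 1))) =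
      (if j % 2 = 0 then κ (j / 2) else -(κ (j / 2) + κ (j / 2 + 1)))
    have e3 : j / 2 + 2 * n + 1 = j / 2 + 1 + 2 * n := by ring
    rw [e0, e1, e3, C.kper, C.kper]
  · intro j
    rw [hY]
    show (X 2 (j / 2), S κ A h (sg j) 2 (j / 2)) =
      (L (X 0 (j / 2)) (X 1 (j / 2)),
        S κ A h (sg j) 0 (j / 2) + S κ A h (sg j) 1 (j / 2) + f (X 0 (j / 2)) (X 1 (j / 2)))
    rw [C.sym]
    congr 1
    have h1 := sum_S (A := A) (h := h) (sg j) (j / 2) (C.kne (j / 2))
    have h2 := hA (j / 2)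
    rw [← h1] at h2
    exact char2 _ _ _ _ h2
  · intro j
    rw [hκ']
    show (if j % 2 = 0 then κ (j / 2) else ν (j / 2)) ≠
      (if (j + 1) % 2 = 0 then κ ((j + 1) / 2) else ν ((j + 1) / 2))
    rcases Nat.even_or_odd' j with ⟨t, rfl | rfl⟩
    · rw [if_pos (by omega), if_neg (by omega)]
      have e1 : 2 * t / 2 = t := by omega
      have e2 : (2 * t + 1) / 2 = t := by omega
      rw [e1, e2]
      exact (hνk t).1.symm
    · rw [if_neg (by omega), if_pos (by omega)]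
      have e1 : (2 * t + 1) / 2 = t := by omega
      have e2 : (2 * t + 1 + 1) / 2 = t + 1 := by omega
      rw [e1, e2]
      exact (hνk t).2
  · intro j
    rw [hY, hκ']
    rcases Nat.even_or_odd' j with ⟨t, rfl | rfl⟩
    · have e1 : 2 * t / 2 = t := by omega
      have e2 : (2 * t + 1) / 2 = t := by omega
      show (X (if (2 * t + 1) % 2 = 0 then κ ((2 * t + 1) / 2) else ν ((2 * t + 1) / 2))
          ((2 * t + 1) / 2), S κ A h (sg (2 * t + 1))
          (if (2 * t + 1) % 2 = 0 then κ ((2 * t + 1) / 2) else ν ((2 * t + 1) / 2))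
          ((2 * t + 1) / 2)) =
        (X (if (2 * t + 1) % 2 = 0 then κ ((2 * t + 1) / 2) else ν ((2 * t + 1) / 2)) (2 * t / 2),
          S κ A h (sg (2 * t))
          (if (2 * t + 1) % 2 = 0 then κ ((2 * t + 1) / 2) else ν ((2 * t + 1) / 2)) (2 * t / 2))
      rw [if_neg (by omega), e1, e2, S_trd _ (hνk t).1 (hνk t).2, S_trd _ (hνk t).1 (hνk t).2]
    · have e1 : (2 * t + 1) / 2 = t := by omega
      have e2 : (2 * t + 1 + 1) / 2 = t + 1 := by omega
      have e3 : sg (2 * t + 1 + 1) = sg (2 * t + 1) := by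
        have : 2 * t + 1 + 1 = 2 * (t + 1) := by ring
        rw [this, sge, sgo]
        push_cast
        rfl
      show (X (if (2 * t + 1 + 1) % 2 = 0 then κ ((2 * t + 1 + 1) / 2) else
          ν ((2 * t + 1 + 1) / 2)) ((2 * t + 1 + 1) / 2), S κ A h (sg (2 * t + 1 + 1))
          (if (2 * t + 1 + 1) % 2 = 0 then κ ((2 * t + 1 + 1) / 2) else ν ((2 * t + 1 + 1) / 2))
          ((2 * t + 1 + 1) / 2)) =
        (X (if (2 * t + 1 + 1) % 2 = 0 then κ ((2 * t + 1 + 1) / 2) else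
          ν ((2 * t + 1 + 1) / 2)) ((2 * t + 1) / 2),
          S κ A h (sg (2 * t + 1))
          (if (2 * t + 1 + 1) % 2 = 0 then κ ((2 * t + 1 + 1) / 2) else ν ((2 * t + 1 + 1) / 2))
          ((2 * t + 1) / 2))
      rw [if_pos (by omega), e1, e2, e3, C.edge t, S_fst _ rfl, S_snd _ (C.kne t).symm rfl]
  · intro a j j' he hmod
    rw [hY] at he
    have he1 : X a (j / 2) = X a (j' / 2) := congrArg Prod.fst he
    have he2 : S κ A h (sg j) a (j / 2) = S κ A h (sg j') a (j' / 2) := congrArg Prod.snd he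
    have hpar : j % 2 = j' % 2 := hmod
    have hs : ∀ i, sg i = ((i / 2 : ℕ) : ZMod 2) + ((i % 2 : ℕ) : ZMod 2) := by
      intro i
      rcases Nat.even_or_odd' i with ⟨t, rfl | rfl⟩
      · have e1 : 2 * t / 2 = t := by omega
        have e2 : 2 * t % 2 = 0 := by omega
        rw [sge, e1, e2]
        simp
      · have e1 : (2 * t + 1) / 2 = t := by omega
        have e2 : (2 * t + 1) % 2 = 1 := by omega
        rw [sgo, e1, e2]
        simp
    have cast_congr : ∀ {u v : ℕ}, u ≡ v [MOD 2 * n] → (u : ZMod 2) = v := by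
      intro u v huv
      exact (ZMod.natCast_eq_natCast_iff u v 2).2 (huv.of_mul_right n)
    rcases hX a (j / 2) (j' / 2) he1 with h1 | ⟨ha, h1⟩ | ⟨ha, h1⟩ | ⟨a1, a2, a3, a4, hh⟩
    · -- same cell
      have h2 : 2 * (j' / 2) ≡ 2 * (j / 2) [MOD 2 * (2 * n)] := Nat.ModEq.mul_left' 2 h1
      have h3 := Nat.ModEq.add_right (j % 2) h2
      have e1 : 2 * (j / 2) + j % 2 = j := by omega
      have e2 : 2 * (j' / 2) + j % 2 = j' := by omega
      rw [e1, e2] at h3
      exact h3.symm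
    · exfalso
      have k1 : κ (j' / 2) = κ (j / 2 + 1) := per_congr C.kper h1
      have A1 : A (j' / 2) = A (j / 2 + 1) := per_congr hAp h1
      rw [S_snd _ (by rw [ha]; exact (C.kne _).symm) ha, S_fst _ (ha.trans k1.symm), A1] at he2
      have he3 := add_left_cancel he2
      rw [hs, hs, ← hpar, cast_congr h1] at he3
      have he4 := add_right_cancel he3
      push_cast at he4
      have : (1 : ZMod 2) = 0 := by
        have := congrArg (fun z => z - ((j / 2 : ℕ) : ZMod 2)) he4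
        simp at this
      exact absurd this (by decide)
    · exfalso
      have k1 : κ (j' / 2 + 1) = κ (j / 2) := per_congr C.kper h1
      have A1 : A (j' / 2 + 1) = A (j / 2) := per_congr hAp h1
      rw [S_fst _ ha, S_snd _ (by rw [ha, ← k1]; exact (C.kne _).symm) (ha.trans k1.symm),
        A1] at he2
      have he3 := add_left_cancel he2
      rw [hs, hs, ← hpar, ← cast_congr h1] at he3
      have he4 := add_right_cancel he3
      push_cast at he4
      have : (1 : ZMod 2) = 0 := by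
        have := congrArg (fun z => z - ((j' / 2 : ℕ) : ZMod 2)) he4
        simp at this
      exact absurd this (by decide)
    · exfalso
      rw [S_trd _ a1 a2, S_trd _ a3 a4] at he2
      exact hh he2

end Pool.Agent.W798.NL.G2B
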